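import Pool.Agent.H369.AS.Stm
import Pool.Graph.R_seed8.TH291.EX.Fin

set_option autoImplicit false

/-! From the existence of one curve to the very general curve (after the library). -/

namespace Pool.Agent.H369.AS

open TensorProduct Pool.Agent.TH549.CK Pool.Agent.TH549.CK.Pub Pool.Agent.TH291.EX

theorem fin0 (h : S_main) {g : ℕ} (hg : 4 ≤ g) :
    ∃ R₀ : Subalgebra ℂ (LaurentSeries ℂ), IsDedekindDomain R₀ ∧ Algebra.FiniteType ℂ R₀ ∧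
      (∀ n : ℕ, 2 * g ≤ n + 1 → Module.finrank ℂ (Lp R₀ n) = n + 1 - g) ∧
      DiagBoundF R₀ (1 + √g) ∧ DiagBoundJ R₀ (1 + √g) ∧
      ∀ (S : Type) [CommRing S] [IsDomain S] [Algebra ℂ S]
        (R : (S →ₐ[ℂ] ℂ) → Subalgebra ℂ (LaurentSeries ℂ)), IsFamily ℂ S g R →
        (∃ φ₀, R φ₀ = R₀) →
        ∃ s : ℕ → S, (∀ j, s j ≠ 0) ∧ ∀ φ : S →ₐ[ℂ] ℂ, (∀ j, φ (s j) ≠ 0) →
          DiagBoundF (R φ) (1 + √g) ∧ (IsIntegrallyClosed (R φ) → DiagBoundJ (R φ) (1 + √g)) := by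
  obtain ⟨R₀, h1, h2⟩ := h g hg
  obtain ⟨h3, h4⟩ := dedekind_of_smooth h1
  have h5 : DiagBoundF R₀ (1 + √g) := diagBoundF_of h2
  refine ⟨R₀, h3, h4, h1.genus, h5, all_line_bundles h1.genus h5, ?_⟩
  rintro S _ _ _ R hR ⟨φ₀, hφ₀⟩
  obtain ⟨s, hs, hs'⟩ := family_general hR (c := 1 + √g) φ₀ (by rw [hφ₀]; exact h5)
  refine ⟨s, hs, fun φ hφ => ⟨hs' φ hφ, fun hi => ?_⟩⟩
  obtain ⟨h6, -⟩ := dedekind_of_smooth (R := R φ) (g := g) ⟨hi, hR.genus φ⟩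
  exact all_line_bundles (g := g) (hR.genus φ) (hs' φ hφ)

theorem fin1 (h : S_main) {g : ℕ} (hg : 4 ≤ g) :
    ∃ R₀ : Subalgebra ℂ (LaurentSeries ℂ), IsCurve g R₀ ∧ Bound (1 + √g) R₀ ∧
      BoundJ (1 + √g) R₀ ∧
      ∀ (S : Type) [CommRing S] [IsDomain S] [Algebra ℂ S]
        (R : (S →ₐ[ℂ] ℂ) → Subalgebra ℂ (LaurentSeries ℂ)), IsFam S g R →
        (∃ φ₀, R φ₀ = R₀) →
        ∃ s : ℕ → S, (∀ j, s j ≠ 0) ∧ ∀ φ : S →ₐ[ℂ] ℂ, (∀ j, φ (s j) ≠ 0) →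
          Bound (1 + √g) (R φ) ∧ (IsIntegrallyClosed (R φ) → BoundJ (1 + √g) (R φ)) := by
  obtain ⟨R₀, h1, h2, h3, h4, h5, h6⟩ := fin0 h hg
  refine ⟨R₀, ⟨h1, h2, fun n hn => ?_⟩, Bound.of h4, BoundJ.of h5, ?_⟩
  · rw [span_eq]
    exact h3 n hn
  · intro S _ _ _ R hR hφ
    obtain ⟨s, hs, hs'⟩ := h6 S R hR.isFamily hφ
    exact ⟨s, hs, fun φ hφ' => ⟨Bound.of (hs' φ hφ').1, fun hi => BoundJ.of ((hs' φ hφ').2 hi)⟩⟩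

theorem fin2 (h : S_main) {g : ℕ} (hg : 4 ≤ g) :
    ∃ R₀ : Subalgebra ℂ (LaurentSeries ℂ), IsCurve g R₀ ∧
      (∀ n y : ℕ, 0 < y → (Eff R₀ n y ↔ (1 + √g) * y < n)) ∧ BoundJ (1 + √g) R₀ ∧
      ∀ (S : Type) [CommRing S] [IsDomain S] [Algebra ℂ S]
        (R : (S →ₐ[ℂ] ℂ) → Subalgebra ℂ (LaurentSeries ℂ)), IsFam S g R →
        (∃ φ₀, R φ₀ = R₀) →
        ∃ s : ℕ → S, (∀ j, s j ≠ 0) ∧ ∀ φ : S →ₐ[ℂ] ℂ, (∀ j, φ (s j) ≠ 0) →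
          IsIntegrallyClosed (R φ) →
          (∀ n y : ℕ, 0 < y → (Eff (R φ) n y ↔ (1 + √g) * y < n)) ∧ BoundJ (1 + √g) (R φ) := by
  have hg0 : 0 < g := by omega
  obtain ⟨R₀, h1, h2, h3, h4⟩ := fin1 h hg
  refine ⟨R₀, h1, fun n y hy => ⟨eff_lt h2 hy, eff_of hg0 (smooth_of h1)⟩, h3, ?_⟩
  intro S _ _ _ R hR hφ
  obtain ⟨s, hs, hs'⟩ := h4 S R hR hφ
  refine ⟨s, hs, fun φ hφ' hi => ?_⟩
  obtain ⟨h5, h6⟩ := hs' φ hφ'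
  exact ⟨fun n y hy => ⟨eff_lt h5 hy, eff_of hg0 ⟨hi, hR.isFamily.genus φ⟩⟩, h6 hi⟩

end Pool.Agent.H369.AS
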