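import Pool.Agent.H369.AS.Parts
import Pool.Agent.H369.AS.Fin
import Pool.Agent.H30.AS.LIM
import Pool.Agent.H52.RE.FUN
import Pool.Agent.H94.RE.FR
import Pool.Agent.H115.RE.EV
import Pool.Agent.H155.RE.WF
import Pool.Agent.H225.RE.NODES
import Pool.Agent.H331.RE.W
import Pool.Agent.H390.AS.DESC
import Pool.Agent.H597.AS.CONV
import Pool.Agent.H603.AS.BAS
import Pool.Agent.H665.AS.NOD
import Pool.Agent.H726.RE.SH
import Pool.Agent.H740.AS.DIA

set_option autoImplicit false

/-! The main theorem. -/

namespace Pool.Agent.H369.AS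

open Pool.Agent.H369 Pool.Agent.H369.SM Pool.Agent.H369.PL Pool.Agent.H369.TH Pool.Agent.H369.CB
open Pool.Agent.H369.CFG Pool.Agent.H369.RE

theorem fr : S_fr := H94.RE.fr rules taylor ths thetaf div
theorem wf : S_wf := H155.RE.wf rules taylor ths thetaf div fr
theorem fun4 : S_fun := H52.RE.fun4 rules ths thetaf
theorem ev : S_ev := H115.RE.ev rules taylor ths thetaf fr
theorem nodes : S_nodes :=
  H225.RE.nodes rules taylor ths thetaf fr fun4 ev H726.RE.sh H726.RE.extE
theorem conv : S_conv :=
  H597.AS.conv rules H390.AS.leib (H740.AS.dia rules taylor) (H665.AS.nod H726.RE.sh)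
theorem lim : S_lim :=
  H30.AS.lim rules taylor ths fr wf H331.RE.w nodes pl H390.AS.desc conv H603.AS.bas

/-- for every `g ≥ 4` there is a curve of genus `g` without negative curves in the symmetric square
except the diagonal -/
theorem mainThm : S_main := main_of lim

end Pool.Agent.H369.AS
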