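import Pool.Agent.H369.AS.Stm

set_option autoImplicit false

namespace Pool.Agent.H369.AS

open TensorProduct Pool.Agent.TH549.CK Pool.Agent.H369.TH Pool.Agent.H369.CFG Pool.Agent.H369.SM
open Pool.Agent.H369.PL Pool.Agent.H369.RE Pool.Agent.H369.CB

theorem L_mono {F 𝕂 P : Type} [Field F] [Field 𝕂] [Algebra F 𝕂] (C : Crv F 𝕂 P) {m : ℕ}
    (N : Nodes P m) {n n' : ℕ} (h : n ≤ n') : C.L (nO N n) ≤ C.L (nO N n') := by
  intro f hf x k hk
  apply hf
  refine lt_of_lt_of_le hk ?_
  rw [neg_le_neg_iff]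
  unfold nO
  classical
  rw [Finsupp.single_apply, Finsupp.single_apply]
  split_ifs
  · exact_mod_cast h
  · exact le_rfl

theorem range_mono {F M : Type} [Field F] [AddCommGroup M] [Module F M] {V W : Submodule F M}
    (h : V ≤ W) {H : M ⊗[F] M} (hH : H ∈ LinearMap.range (TensorProduct.map V.subtype V.subtype)) :
    H ∈ LinearMap.range (TensorProduct.map W.subtype W.subtype) := by
  obtain ⟨z, rfl⟩ := hH
  refine ⟨TensorProduct.map (Submodule.inclusion h) (Submodule.inclusion h) z, ?_⟩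
  rw [← LinearMap.comp_apply, ← TensorProduct.map_comp]
  rfl

theorem main_aux (hSM : S_SM) (hE : S_E) (hlim : S_lim) (g : ℕ) (hg : 4 ≤ g) (Γ K : Type)
    [AddCommGroup Γ] [LinearOrder Γ] [IsOrderedAddMonoid Γ] [Field K] [CharZero K]
    (A : Gam Γ (Int.fract (2 * √g))) (ξ : Fin (g - 1) → Kˣ) (hξ : Function.Injective ξ)
    (y : Fin (g - 1) → K) (hy : Function.Injective y) (hemp : Emp K g ξ y) (F : Type) [Field F]
    [IsAlgClosed F] [CharZero F] [Algebra (BB (HG Γ K)) F] [Algebra (HG Γ K) F]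
    (hinj : Function.Injective (algebraMap (BB (HG Γ K)) F))
    (hc : ∀ c : HG Γ K, algebraMap (HG Γ K) F c =
      algebraMap (BB (HG Γ K)) F (PowerSeries.C (PowerSeries.C c)))
    [Algebra (LaurentSeries F) ℂ] [Algebra.IsAlgebraic (LaurentSeries F) ℂ] :
    ∃ R : Subalgebra ℂ (LaurentSeries ℂ),
      IsSmoothCurve R g ∧ DiagProp R (fun n γ => 0 < γ → (1 + √g) * γ < n) := by
  obtain ⟨PP, C, N, hRR, hN⟩ := hlim Γ K _ A (g - 1) ξ hξ y hy F hinj hc
  have : CharZero (LaurentSeries F) :=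
    charZero_of_injective_algebraMap (algebraMap F (LaurentSeries F)).injective
  obtain ⟨h1, h2, h3⟩ := hSM F (FractionRing (ext (R1 A.P (A.o : Pt Γ K)) F)) PP C 1 hRR (g - 1) N
    (LaurentSeries F) (fun n γ => 0 < γ → (1 + √g) * γ < n) (by
      intro n γ G hG hL hFV hnd hγ
      by_contra hcon
      rw [not_lt] at hcon
      have hsq : 0 ≤ √(g : ℝ) := Real.sqrt_nonneg _
      have hγ1 : (1 : ℝ) ≤ γ := by exact_mod_cast hγ
      obtain ⟨κ, G', hκ, hcond, a, b, hne⟩ := hN (max n 1) γ G (by positivity) hG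
        (range_mono (L_mono C N (le_max_left _ _)) hL) hFV hnd
      refine hne (hE Γ K g hg A ξ y hemp (max n 1) γ hγ ?_ κ hκ G' hcond a b)
      rw [Nat.cast_max]
      refine max_le hcon ?_
      push_cast
      nlinarith)
  have h4 : 1 + (g - 1) = g := by omega
  rw [h4] at h1
  refine ⟨ext (RK (LaurentSeries F) C N) ℂ, ⟨?_, ?_⟩, ?_⟩
  · exact ext_normal h1.normal
  · intro n hn
    have := h3 n
    rw [ext_finrank]
    exact h1.genus n hn
  · exact ext_diagProp ℂ h2

theorem main (hSM : S_SM) (hCB : S_CB) (hGam : S_Gam) (hcard : S_card) (halg : S_alg) (hE : S_E)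
    (hlim : S_lim) : S_main := by
  intro g hg
  obtain ⟨K, _, _, ξ, y, hK, hξ, hy, hemp⟩ := hCB g hg
  obtain ⟨Γ, _, _, _, ⟨A⟩⟩ := hGam (Int.fract (2 * √g)) (Int.fract_nonneg _) (Int.fract_lt_one _)
  have := A.countable
  have hc0 : CharZero (HG Γ K) :=
    charZero_of_injective_algebraMap (algebraMap K (HG Γ K)).injective
  have hF0 := hcard Γ K hK
  let B := BB (HG Γ K)
  let F := AlgebraicClosure (FractionRing B)
  have hinj : Function.Injective (algebraMap B F) := by
    rw [IsScalarTower.algebraMap_eq B (FractionRing B) F]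
    exact (algebraMap (FractionRing B) F).injective.comp (IsFractionRing.injective B (FractionRing B))
  letI : Algebra (HG Γ K) F := ((algebraMap B F).comp
    ((PowerSeries.C (R := PowerSeries (HG Γ K))).comp (PowerSeries.C (R := HG Γ K)))).toAlgebra
  have hc1 : CharZero F := charZero_of_injective_algebraMap (algebraMap (HG Γ K) F).injective
  obtain ⟨_, _⟩ := halg F hF0
  exact main_aux hSM hE hlim g hg Γ K A ξ hξ y hy hemp F hinj (fun _ => rfl)

end Pool.Agent.H369.AS
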