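import Pool.Agent.H369.AS.Main
import Pool.Agent.H100.SM.ND
import Pool.Agent.H100.TH.RULES
import Pool.Agent.H118.TH.DELTA
import Pool.Agent.H124.TH.THS
import Pool.Agent.H155.CFG.GAM
import Pool.Agent.H161.PL.EXP
import Pool.Agent.H183.CB.POW
import Pool.Agent.H187.PL.ORD
import Pool.Agent.H199.SM.MEM
import Pool.Agent.H215.PL.CODIM
import Pool.Agent.H218.SM.ND0
import Pool.Agent.H225.TH.EPS
import Pool.Agent.H233.CFG.CARD
import Pool.Agent.H278.SM.FV
import Pool.Agent.H282.SM.SUR
import Pool.Agent.H286.SM.BRK
import Pool.Agent.H287.TH.PNODE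
import Pool.Agent.H297.CB.CB
import Pool.Agent.H331.SM.CHI
import Pool.Agent.H331.TH.QUOT
import Pool.Agent.H338.SM.FINAL
import Pool.Agent.H390.TH.TAYLOR
import Pool.Agent.H390.TH.THETA
import Pool.Agent.H401.PL.RR
import Pool.Agent.H404.SM.NORMAL
import Pool.Agent.H553.TH.DIV
import Pool.Agent.H650.TH.B0
import Pool.Agent.H687.CFG.E
import Pool.Agent.H687.TH.TAU
import Pool.Agent.H720.CB.UNIF
import Pool.Agent.H784.SM.BASIS
import Pool.Agent.H803.SM.LIFT
import Pool.Agent.H922.TH.AB
import Pool.Agent.H955.TH.WIN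

set_option autoImplicit false

/-! The parts of the proof. -/

namespace Pool.Agent.H369.AS

open Pool.Agent.H369 Pool.Agent.H369.SM Pool.Agent.H369.PL Pool.Agent.H369.TH Pool.Agent.H369.CB
open Pool.Agent.H369.CFG

theorem sm : S_SM :=
  have oh := H199.SM.oh_mem
  have mem := H199.SM.mem
  have sur := H282.SM.sur
  have lift := H803.SM.lift mem sur
  have dv := H784.SM.div mem
  have bs := H784.SM.basis mem sur lift dv oh
  have chi := H331.SM.chi oh
  have brk := H286.SM.basisRK bs chi oh
  have nor := H404.SM.normal oh chi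
  have nd := H100.SM.nd H218.SM.nd0 chi oh mem
  H338.SM.final brk nor H278.SM.fv nd

theorem pl : S_PL := H401.PL.pl H215.PL.codim H161.PL.exp H187.PL.ord

theorem rules : S_rules := H100.TH.rules
theorem taylor : S_T := H390.TH.taylor
theorem ths : S_Th := H124.TH.th rules
theorem thetaf : S_theta := H390.TH.thetaf
theorem div : TH.S_div := H553.TH.div rules taylor ths thetaf
theorem b0 : S_b0 := H650.TH.b0 rules taylor ths thetaf div
theorem ab : S_AB := H922.TH.ab rules taylor ths thetaf div b0
theorem delta : S_delta := H118.TH.delta rules taylor ab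
theorem quot : S_quot := H331.TH.quot rules taylor ths thetaf div
theorem eps : S_eps := H225.TH.eps rules taylor ths thetaf quot H287.TH.pnode
theorem tau : S_tau := H687.TH.tau H955.TH.win' H955.TH.lead
theorem cb : S_CB := H297.CB.cb H183.CB.pow H720.CB.unif
theorem gam : S_Gam := H155.CFG.gam
theorem card : S_card := H233.CFG.card
theorem alg : S_alg := H233.CFG.alg
theorem e : S_E := H687.CFG.e rules thetaf delta eps tau

theorem main_of (hlim : S_lim) : S_main := main sm cb gam card alg e hlim

end Pool.Agent.H369.AS
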