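import Pool.Agent.H369.RE.Stm

/-!
# From the nodal curve over the big field to the entire functions: assembly statements
-/

set_option autoImplicit false

namespace Pool.Agent.H369.AS

open TensorProduct Pool.Agent.TH549.CK Pool.Agent.H369.TH Pool.Agent.H369.CFG Pool.Agent.H369.SM
open Pool.Agent.H369.PL Pool.Agent.H369.RE Pool.Agent.H369.CB

/-- **AS1** (descent of the coefficients of linear equations).  Let `Q` be the fraction field of `B`
(`F` is an algebra over `Q`), `W = {l ∈ Q^I : ∑ c_i l_i = 0}`, a proper subspace as `c ≠ 0`; there is a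
nonzero linear functional on `Q^I` which vanishes on `W`, i.e. `c'' ∈ Q^I` nonzero with
`∑ c''_i l_i = 0` for `l ∈ W`; multiply by a common denominator. -/
def S_desc : Prop := ∀ (B F : Type) [CommRing B] [IsDomain B] [Field F] [Algebra B F]
  (_ : Function.Injective (algebraMap B F)) (I : Type) [Fintype I] (c : I → F) (_ : c ≠ 0),
  ∃ c' : I → B, c' ≠ 0 ∧
    ∀ l : I → B, ∑ i, c i * algebraMap B F (l i) = 0 → ∑ i, c' i * l i = 0

/-- **AS2** (symmetry of the order along the diagonal), from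
`h D_j(h') = ∑_{k ≤ j} (-1)^k D_(j-k)(D_k(h) h')`, `D_j` the Hasse derivatives (Leibniz rule; compare the
library files `P21.lean`, `P26.lean`). -/
def S_leib : Prop := ∀ (k : Type) [Field k] (d γ : ℕ) (h : Fin d → LaurentSeries k)
  (g : Fin d → Fin d → k)
  (_ : ∀ j < γ, ∑ a, ∑ b, HahnSeries.C (g a b) * LaurentSeries.hasseDeriv k j (h a) * h b = 0),
  ∀ j < γ, ∑ a, ∑ b, HahnSeries.C (g b a) * LaurentSeries.hasseDeriv k j (h a) * h b = 0

/-- **AS3** (order along the diagonal).  `T o` is injective and `T o (Dl l f) = (1 + u)^l hs l (T o f)`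
(`S_T`), `T o (f a) = h a * (T o θ)^n` and `hs l (h θ^n) = ∑_{i+j=l} D_i(h) D_j(θ^n)`. -/
def S_dia : Prop := ∀ (Γ K : Type) [AddCommGroup Γ] [LinearOrder Γ] [IsOrderedAddMonoid Γ] [Field K]
  [CharZero K] (P : Γ) (_ : Big P) (o : Pt Γ K) (n d γ : ℕ) (f : Fin d → Ent Γ K)
  (h : Fin d → LaurentSeries (HG Γ K)) (_ : ∀ a, Fr P o n (f a) (h a)) (g : Fin d → Fin d → HG Γ K)
  (_ : ∀ j < γ, ∑ a, ∑ b, HahnSeries.C (g a b) * LaurentSeries.hasseDeriv (HG Γ K) j (h a) * h b = 0),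
  ∀ l < γ, dv l (∑ a, ∑ b, g a b • (f a ⊗ₜ[HG Γ K] f b)) = 0

/-- **AS4** (the node conditions).  The two variable series `∑ c_ab P_a(u) shf ζ (Q_b)(v)` lies in the ideal
`(u, v)^γ`; multiply by `u₀(u)` and `shf ζ v₀`, so the hypothesis holds for `P_a u₀` and `Q_b v₀`
(`shf ζ (Q_b v₀) = shf ζ Q_b * shf ζ v₀` by `S_sh`).  The coefficient of `v^b'` in `shf ζ q` times `δ^b'` is
`∑_l (l choose b') q_l ζ^(l - b') δ^l`; take the coefficient of `δ^N`. -/
def S_nod : Prop := ∀ (k : Type) [Field k] (d γ : ℕ) (ζ u₀ v₀ : PowerSeries k)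
  (P Q : Fin d → PowerSeries k) (c : Fin d → Fin d → BB k)
  (_ : ∀ a' b' : ℕ, a' + b' < γ → ∑ a, ∑ b, c a b *
    PowerSeries.C (PowerSeries.C (PowerSeries.coeff a' (P a))) *
    PowerSeries.coeff b' (shf ζ (Q b)) = 0) (a' b' N : ℕ) (_ : a' + b' < γ),
  ∑ l ∈ Finset.range (N + 1), (l.choose b' : PowerSeries k) * ζ ^ (l - b') *
    ∑ a, ∑ b, PowerSeries.coeff (N - l) (c a b) *
      PowerSeries.C (PowerSeries.coeff a' (P a * u₀) * PowerSeries.coeff l (Q b * v₀)) = 0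

/-- **AS5**.  Put `c'' a b = c a b + κ c b a` with `κ = 1` or `κ = -1` such that not all are zero, and
`G A s = ∑ (coefficient of δ^A ε^s of c'' a b) f a ⊗ f b`.  The equations `E1` hold for the transpose by
`S_leib` (coefficientwise in `δ^A ε^s`), `E2`/`E3` are exchanged.  `dia` is `S_dia`, `nod` is `S_nod` with
`u₀ = T p θ^n`, `v₀ = T x θ^n`; `G ≠ 0` as the `f a ⊗ f b` are linearly independent. -/
def S_conv : Prop := ∀ (Γ K : Type) [AddCommGroup Γ] [LinearOrder Γ] [IsOrderedAddMonoid Γ] [Field K]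
  [CharZero K] (τ : ℝ) (A : Gam Γ τ) (m : ℕ) (ξ : Fin m → Kˣ) (y : Fin m → K) (n γ d : ℕ)
  (f : Fin d → Ent Γ K) (_ : LinearIndependent (HG Γ K) f) (h : Fin d → LaurentSeries (HG Γ K))
  (_ : ∀ a, Fr A.P A.o n (f a) (h a)) (P : Fin m → Fin d → PowerSeries (HG Γ K))
  (_ : ∀ i a, P i a * T (A.p ξ i) (theta A.P A.o) ^ n = T (A.p ξ i) (f a))
  (Q : Fin d → PowerSeries (HG Γ K)) (_ : ∀ a, Q a * T A.x (theta A.P A.o) ^ n = T A.x (f a))
  (c : Fin d → Fin d → BB (HG Γ K)) (_ : ∃ a b, c a b ≠ 0)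
  (_ : ∀ j < γ, ∀ l : ℤ, ∑ a, ∑ b, c a b * PowerSeries.C (PowerSeries.C
    ((LaurentSeries.hasseDeriv (HG Γ K) j (h a) * h b).coeff l)) = 0)
  (_ : ∀ (i : Fin m) (a' b' : ℕ), a' + b' < γ → ∑ a, ∑ b, c a b *
    PowerSeries.C (PowerSeries.C (PowerSeries.coeff a' (P i a))) *
    PowerSeries.coeff b' (shf (A.ze ξ y i) (Q b)) = 0)
  (_ : ∀ (i : Fin m) (a' b' : ℕ), a' + b' < γ → ∑ a, ∑ b, c a b *
    PowerSeries.C (PowerSeries.C (PowerSeries.coeff a' (P i b))) *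
    PowerSeries.coeff b' (shf (A.ze ξ y i) (Q a)) = 0),
  ∃ (κ : HG Γ K) (G : ℕ → ℕ → Ent Γ K ⊗[HG Γ K] Ent Γ K), κ * κ = 1 ∧ Cond A ξ y n γ κ G ∧
    ∃ a b, G a b ≠ 0

/-- **AS6** (sections with poles of order at most `n` at infinity).  An element of `C.L (n o)` is regular
outside `o`, so it is in `ext R Ω`, and its pole order at `o` is at most `n`, so it is in
`Lp (ext R Ω) n`, which is spanned by the images of the basis (`P8.ext_span`, `P8.coords`, or the proof of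
`ext_finrank`). -/
def S_bas : Prop := ∀ (k : Type) [Field k] (R : Subalgebra k (LaurentSeries k)) (Ω : Type) [Field Ω]
  [Algebra k Ω] (PP : Type) (C : Crv Ω (FractionRing (ext R Ω)) PP) (o : PP)
  (_ : ∀ f : ext R Ω, C.E o (algebraMap _ (FractionRing (ext R Ω)) f) = (f : LaurentSeries Ω))
  (_ : ∀ f : FractionRing (ext R Ω), (∀ x, x ≠ o → ∀ k < 0, (C.E x f).coeff k = 0) →
    ∃ r : ext R Ω, algebraMap _ (FractionRing (ext R Ω)) r = f) (n d : ℕ) (h : Fin d → R)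
  (_ : ∀ f ∈ Lp R n, ∃ c : Fin d → k, f = ∑ a, c a • h a) (_ : ∀ a, h a ∈ Lp R n)
  (_ : LinearIndependent k h)
  (H : FractionRing (ext R Ω) ⊗[Ω] FractionRing (ext R Ω))
  (_ : H ∈ LinearMap.range (TensorProduct.map (C.L (Finsupp.single o (n : ℤ))).subtype
    (C.L (Finsupp.single o (n : ℤ))).subtype)),
  ∃ c : Fin d → Fin d → Ω, H = ∑ a, ∑ b, c a b •
    (algebraMap _ (FractionRing (ext R Ω)) (up R Ω (h a)) ⊗ₜ[Ω]
      algebraMap _ (FractionRing (ext R Ω)) (up R Ω (h b)))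

/-- **AS7** (the nodal curve).  `R = R1 A.P A.o`; `ext R F` is smooth of genus one (`S_fr`, `S_wf`, `S_W`),
`S_nodes` gives the expansions at the nodes, `S_PL` (with the index type `Fin m ⊕ Fin m`) the curve `C`.
For `H` take a basis `f a` of `Th A.P n (ng A.o ^ n)`, the corresponding `h a` (a basis of `Lp R n`, `S_fr`; injectivity
of `T o` is in `S_T`), `S_bas` gives `c a b ∈ F`; the conditions are linear equations for the `c a b` with
coefficients in `B` (`sjE`, `nn` are sums over `a, b`; `hasseDeriv` commutes with the map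
`k((w)) → F((w))`); by `S_desc` (with `I = Fin d × Fin d`) there is a nonzero solution in `B`; apply
`S_conv`. -/
def S_lim : Prop := ∀ (Γ K : Type) [AddCommGroup Γ] [LinearOrder Γ] [IsOrderedAddMonoid Γ] [Field K]
  [CharZero K] (τ : ℝ) (A : Gam Γ τ) (m : ℕ) (ξ : Fin m → Kˣ) (_ : Function.Injective ξ) (y : Fin m → K)
  (_ : Function.Injective y) (F : Type) [Field F] [IsAlgClosed F] [CharZero F]
  [Algebra (BB (HG Γ K)) F] [Algebra (HG Γ K) F]
  (_ : Function.Injective (algebraMap (BB (HG Γ K)) F))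
  (_ : ∀ c : HG Γ K, algebraMap (HG Γ K) F c =
    algebraMap (BB (HG Γ K)) F (PowerSeries.C (PowerSeries.C c))),
  ∃ (PP : Type) (C : Crv F (FractionRing (ext (R1 A.P (A.o : Pt Γ K)) F)) PP) (N : Nodes PP m),
    C.RR 1 ∧ ∀ (n γ : ℕ) (H : FractionRing (ext (R1 A.P (A.o : Pt Γ K)) F) ⊗[F]
      FractionRing (ext (R1 A.P (A.o : Pt Γ K)) F)), 0 < n → H ≠ 0 →
    H ∈ LinearMap.range (TensorProduct.map (C.L (nO N n)).subtype (C.L (nO N n)).subtype) →
    (∀ j < γ, sjE C N.o j H = 0) →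
    (∀ (i : Fin m) (a b : ℕ), a + b < γ →
      nn C (N.p i) (N.q i) a b H = 0 ∧ nn C (N.q i) (N.p i) a b H = 0) →
    ∃ (κ : HG Γ K) (G : ℕ → ℕ → Ent Γ K ⊗[HG Γ K] Ent Γ K), κ * κ = 1 ∧ Cond A ξ y n γ κ G ∧
      ∃ a b, G a b ≠ 0

/-- **AS8** (main theorem) -/
def S_main : Prop := ∀ g : ℕ, 4 ≤ g → ∃ R : Subalgebra ℂ (LaurentSeries ℂ),
  IsSmoothCurve R g ∧ DiagProp R (fun n γ => 0 < γ → (1 + √g) * γ < n)

end Pool.Agent.H369.AS
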